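import Pool.Agent.Lib_helper53.MET.DefsE

/-!
# MP_760942_al, block E2b: the framed module with a sign variable recovers the signed isomorphism
-/

set_option autoImplicit false

namespace Pool.Agent.MET

namespace E2b

/-- the sign `(-1)^n` -/
def eps (n : ℤ) : ℤ := (((-1 : ℤˣ) ^ n : ℤˣ) : ℤ)

theorem eps_zero : eps 0 = 1 := by simp [eps]

theorem eps_add (m n : ℤ) : eps (m + n) = eps m * eps n := by simp [eps, zpow_add]

theorem eps_one : eps 1 = -1 := by simp [eps]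

theorem eps_or (n : ℤ) : eps n = 1 ∨ eps n = -1 := by
  unfold eps
  rcases Int.units_eq_one_or ((-1 : ℤˣ) ^ n) with h | h <;> simp [h]

/-- exponent vector: framed `a`, `b`, then the sign variable, then the rest -/
def fs {k : ℕ} (a b s : ℤ) (v : Fin k → ℤ) : Fin (k + 1 + 2) → ℤ :=
  fr a b (Fin.cons (α := fun _ => ℤ) s v : Fin (k + 1) → ℤ)

/-- the last coordinates -/
def tl {k : ℕ} (v : Fin (k + 1 + 2) → ℤ) : Fin k → ℤ := fun i => v i.succ.succ.succ

theorem fs_eta {k : ℕ} (v : Fin (k + 1 + 2) → ℤ) : fs (v 0) (v 1) (v 2) (tl v) = v := by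
  funext i
  refine Fin.cases ?_ (fun i => ?_) i
  · rfl
  · refine Fin.cases ?_ (fun i => ?_) i
    · rfl
    · refine Fin.cases ?_ (fun i => ?_) i
      · rfl
      · rfl

theorem fs_add {k : ℕ} (a b s a' b' s' : ℤ) (v v' : Fin k → ℤ) :
    fs a b s v + fs a' b' s' v' = fs (a + a') (b + b') (s + s') (v + v') := by
  funext i
  refine Fin.cases ?_ (fun i => ?_) i
  · rfl
  · refine Fin.cases ?_ (fun i => ?_) i
    · rfl
    · refine Fin.cases ?_ (fun i => ?_) i
      · rfl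
      · rfl

theorem fs_zero {k : ℕ} : fs 0 0 0 (0 : Fin k → ℤ) = 0 := by
  funext i
  refine Fin.cases ?_ (fun i => ?_) i
  · rfl
  · refine Fin.cases ?_ (fun i => ?_) i
    · rfl
    · refine Fin.cases ?_ (fun i => ?_) i
      · rfl
      · rfl

theorem fs_smul {k : ℕ} (n a b s : ℤ) (v : Fin k → ℤ) :
    n • fs a b s v = fs (n * a) (n * b) (n * s) (n • v) := by
  funext i
  refine Fin.cases ?_ (fun i => ?_) i
  · rfl
  · refine Fin.cases ?_ (fun i => ?_) i
    · rfl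
    · refine Fin.cases ?_ (fun i => ?_) i
      · rfl
      · rfl

theorem fs_2 {k : ℕ} (a b s : ℤ) (v : Fin k → ℤ) : fs a b s v 2 = s := rfl

theorem fs_0 {k : ℕ} (a b s : ℤ) (v : Fin k → ℤ) : fs a b s v 0 = a := rfl

theorem tl_fs {k : ℕ} (a b s : ℤ) (v : Fin k → ℤ) : tl (fs a b s v) = v := rfl

theorem tl_add {k : ℕ} (v w : Fin (k + 1 + 2) → ℤ) : tl (v + w) = tl v + tl w := rfl

theorem tl_zero {k : ℕ} : tl (0 : Fin (k + 1 + 2) → ℤ) = 0 := rfl

theorem mon0 (k : ℕ) : mon (k + 1 + 2) [(0, true)] = fs 1 0 0 (0 : Fin k → ℤ) := by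
  funext i
  refine Fin.cases ?_ (fun i => ?_) i
  · rfl
  · refine Fin.cases ?_ (fun i => ?_) i
    · rfl
    · refine Fin.cases ?_ (fun i => ?_) i
      · rfl
      · simp [mon, fs, fr]

theorem mon1 (k : ℕ) : mon (k + 1 + 2) [(1, true)] = fs 0 1 0 (0 : Fin k → ℤ) := by
  funext i
  refine Fin.cases ?_ (fun i => ?_) i
  · rfl
  · refine Fin.cases ?_ (fun i => ?_) i
    · rfl
    · refine Fin.cases ?_ (fun i => ?_) i
      · rfl
      · simp [mon, fs, fr]

theorem mon2 (k : ℕ) : mon (k + 1 + 2) [(2, true)] = fs 0 0 1 (0 : Fin k → ℤ) := by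
  funext i
  refine Fin.cases ?_ (fun i => ?_) i
  · rfl
  · refine Fin.cases ?_ (fun i => ?_) i
    · rfl
    · refine Fin.cases ?_ (fun i => ?_) i
      · rfl
      · simp [mon, fs, fr]

theorem mon_sh3 (k : ℕ) (w : Word) : mon (k + 1 + 2) (sh 3 w) = fs 0 0 0 (mon k w) := by
  funext i
  simp only [mon, sh, List.map_map]
  refine Fin.cases ?_ (fun i => ?_) i
  · change _ = (0 : ℤ)
    apply List.sum_eq_zero
    intro x hx
    rw [List.mem_map] at hx
    obtain ⟨p, _, rfl⟩ := hx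
    simp
  · refine Fin.cases ?_ (fun i => ?_) i
    · change _ = (0 : ℤ)
      apply List.sum_eq_zero
      intro x hx
      rw [List.mem_map] at hx
      obtain ⟨p, _, rfl⟩ := hx
      simp
    · refine Fin.cases ?_ (fun i => ?_) i
      · change _ = (0 : ℤ)
        apply List.sum_eq_zero
        intro x hx
        rw [List.mem_map] at hx
        obtain ⟨p, _, rfl⟩ := hx
        have h2 : ((Fin.succ (Fin.succ (0 : Fin (k + 1))) : Fin (k + 1 + 2)) : ℕ) = 2 := rfl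
        have h3 : ¬ (p.1 + 3 = ((Fin.succ (Fin.succ (0 : Fin (k + 1))) : Fin (k + 1 + 2)) : ℕ)) := by
          rw [h2]; omega
        simp only [Function.comp]
        rw [if_neg h3]
      · change _ = (List.map (fun p => if p.1 = (i : ℕ) then (if p.2 then (1 : ℤ) else -1) else 0) w).sum
        congr 1
        apply List.map_congr_left
        intro p _
        simp [Function.comp]

/-- the framed module -/
abbrev P (c : MCode) := PM (c.1 + 1 + 2) (c.2.1 + 1) (sgFr c).2.2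

/-- the original module -/
abbrev M0 (c : MCode) := PM c.1 c.2.1 c.2.2

/-! ### the list of relations -/

theorem mem_rel {c : MCode} {r : Rel} (h : r ∈ (sgFr c).2.2) :
    (∃ r' ∈ c.2.2, r = shr 1 3 r') ∨ (∃ i < c.2.1, r = [(i + 1, true, [(2, true)]), (i + 1, true, [])]) ∨
    (∃ i < c.2.1, r = eqn 0 (i + 1) 1) ∨ (∃ i < c.2.1, r = eqn 1 (i + 1) 1) ∨
    r = [(0, true, [(2, true)]), (0, true, [])] ∨ r = eqn 0 0 2 ∨ r = eqn 1 0 1 := by
  simp only [sgFr, List.mem_append, List.mem_map, List.mem_range, List.mem_cons, List.not_mem_nil,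
    or_false] at h
  rcases h with (((⟨r', h1, h2⟩ | ⟨i, h1, h2⟩) | ⟨i, h1, h2⟩) | ⟨i, h1, h2⟩) | h | h | h
  · exact Or.inl ⟨r', h1, h2.symm⟩
  · exact Or.inr (Or.inl ⟨i, h1, h2.symm⟩)
  · exact Or.inr (Or.inr (Or.inl ⟨i, h1, h2.symm⟩))
  · exact Or.inr (Or.inr (Or.inr (Or.inl ⟨i, h1, h2.symm⟩)))
  · exact Or.inr (Or.inr (Or.inr (Or.inr (Or.inl h))))
  · exact Or.inr (Or.inr (Or.inr (Or.inr (Or.inr (Or.inl h)))))
  · exact Or.inr (Or.inr (Or.inr (Or.inr (Or.inr (Or.inr h)))))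

theorem rel_mem1 {c : MCode} {r : Rel} (h : r ∈ c.2.2) : shr 1 3 r ∈ (sgFr c).2.2 := by
  simp only [sgFr, List.mem_append, List.mem_map]
  exact Or.inl (Or.inl (Or.inl (Or.inl ⟨r, h, rfl⟩)))

theorem rel_mem2 {c : MCode} {i : ℕ} (h : i < c.2.1) :
    [(i + 1, true, [(2, true)]), (i + 1, true, [])] ∈ (sgFr c).2.2 := by
  simp only [sgFr, List.mem_append, List.mem_map, List.mem_range]
  exact Or.inl (Or.inl (Or.inl (Or.inr ⟨i, h, rfl⟩)))

theorem rel_mem3 {c : MCode} {i : ℕ} (h : i < c.2.1) : eqn 0 (i + 1) 1 ∈ (sgFr c).2.2 := by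
  simp only [sgFr, List.mem_append, List.mem_map, List.mem_range]
  exact Or.inl (Or.inl (Or.inr ⟨i, h, rfl⟩))

theorem rel_mem4 {c : MCode} {i : ℕ} (h : i < c.2.1) : eqn 1 (i + 1) 1 ∈ (sgFr c).2.2 := by
  simp only [sgFr, List.mem_append, List.mem_map, List.mem_range]
  exact Or.inl (Or.inr ⟨i, h, rfl⟩)

theorem rel_mem5 {c : MCode} : [(0, true, [(2, true)]), (0, true, [])] ∈ (sgFr c).2.2 := by
  simp [sgFr]

theorem rel_mem6 {c : MCode} : eqn 0 0 2 ∈ (sgFr c).2.2 := by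
  simp [sgFr]

theorem rel_mem7 {c : MCode} : eqn 1 0 1 ∈ (sgFr c).2.2 := by
  simp [sgFr]

/-! ### the action of the special variables -/

/-- `s = -1` from the relation `s e + e = 0` -/
theorem pm_neg {k b : ℕ} {R : List Rel} (i : ℕ)
    (h : [(i, true, [(2, true)]), (i, true, ([] : Word))] ∈ R) :
    (xp (fs 0 0 1 (0 : Fin k → ℤ)) : L (k + 1 + 2)) • (gen i : PM (k + 1 + 2) b R) = -gen i := by
  have := pm_rel (k := k + 1 + 2) (b := b) _ h
  simp only [List.map_cons, List.map_nil, List.sum_cons, List.sum_nil, add_zero, sg, if_true, one_smul,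
    mon2, mon_nil, xp_zero] at this
  exact eq_neg_of_add_eq_zero_left this

theorem s_gen {c : MCode} {i : ℕ} (hi : i < c.2.1 + 1) :
    (xp (fs 0 0 1 (0 : Fin c.1 → ℤ)) : L (c.1 + 1 + 2)) • (gen i : P c) = -gen i := by
  cases i with
  | zero => exact pm_neg 0 rel_mem5
  | succ i => exact pm_neg (i + 1) (rel_mem2 (by omega))

theorem y2_gen {c : MCode} {i : ℕ} (hi : i < c.2.1 + 1) :
    (xp (fs 0 1 0 (0 : Fin c.1 → ℤ)) : L (c.1 + 1 + 2)) • (gen i : P c) = gen i := by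
  rw [← mon1]
  cases i with
  | zero =>
    have := pm_eqn (k := c.1 + 1 + 2) (b := c.2.1 + 1) (R := (sgFr c).2.2) 1 0 1 rel_mem7
    rw [one_smul] at this
    exact this
  | succ i =>
    have := pm_eqn (k := c.1 + 1 + 2) (b := c.2.1 + 1) (R := (sgFr c).2.2) 1 (i + 1) 1 (rel_mem4 (by omega))
    rw [one_smul] at this
    exact this

theorem y1_gen {c : MCode} {i : ℕ} (hi : i < c.2.1) :
    (xp (fs 1 0 0 (0 : Fin c.1 → ℤ)) : L (c.1 + 1 + 2)) • (gen (i + 1) : P c) = gen (i + 1) := by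
  rw [← mon0]
  have := pm_eqn (k := c.1 + 1 + 2) (b := c.2.1 + 1) (R := (sgFr c).2.2) 0 (i + 1) 1 (rel_mem3 hi)
  rw [one_smul] at this
  exact this

theorem y1_gen0 {c : MCode} :
    (xp (fs 1 0 0 (0 : Fin c.1 → ℤ)) : L (c.1 + 1 + 2)) • (gen 0 : P c) = 2 • gen 0 := by
  rw [← mon0]
  exact pm_eqn (k := c.1 + 1 + 2) (b := c.2.1 + 1) (R := (sgFr c).2.2) 0 0 2 rel_mem6

/-- if a monomial acts by a scalar on the generators it does so everywhere -/
theorem act_all {k b : ℕ} {R : List Rel} (u : Fin k → ℤ) (n : ℤ)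
    (h : ∀ i < b, (xp u : L k) • (gen i : PM k b R) = n • gen i) (m : PM k b R) :
    (xp u : L k) • m = n • m := by
  refine pm_induction (motive := fun m => (xp u : L k) • m = n • m) m ?_ ?_ ?_ ?_
  · simp
  · intro a b ha hb; rw [smul_add, smul_add, ha, hb]
  · intro a ha; rw [smul_neg, smul_neg, ha]
  · intro v i hi
    rw [smul_comm, h i hi, smul_comm]

theorem act_zpow {k : ℕ} {B : Type*} [AddCommGroup B] [Module (L k) B] (u : Fin k → ℤ) (c : ℤˣ) (m : B)
    (h : (xp u : L k) • m = (c : ℤ) • m) (n : ℤ) : (xp (n • u) : L k) • m = ((c ^ n : ℤˣ) : ℤ) • m := by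
  have h1 : (xp (-u) : L k) • m = ((c⁻¹ : ℤˣ) : ℤ) • m := by
    have h2 : (xp (-u) : L k) • ((xp u : L k) • m) = m := by
      rw [smul_smul, ← xp_add, neg_add_cancel, xp_zero, one_smul]
    rw [h] at h2
    have h3 : (xp (-u) : L k) • (c : ℤ) • m = (c : ℤ) • (xp (-u) : L k) • m := smul_comm _ _ _
    rw [h3] at h2
    calc (xp (-u) : L k) • m = (((c⁻¹ : ℤˣ) : ℤ) * (c : ℤ)) • (xp (-u) : L k) • m := by
          rw [← Units.val_mul, inv_mul_cancel, Units.val_one, one_smul]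
      _ = ((c⁻¹ : ℤˣ) : ℤ) • m := by rw [mul_smul, h2]
  induction n using Int.induction_on with
  | zero => simp [xp_zero]
  | succ n ih =>
    rw [add_smul, one_smul, xp_add, mul_smul, h, smul_comm, ih, smul_smul, ← Units.val_mul, zpow_add_one,
      mul_comm]
  | pred n ih =>
    rw [sub_smul, one_smul, sub_eq_add_neg, xp_add, mul_smul, h1, smul_comm, ih, smul_smul, ← Units.val_mul,
      zpow_sub_one, mul_comm]

theorem s_all {c : MCode} (s : ℤ) (m : P c) :
    (xp (fs 0 0 s (0 : Fin c.1 → ℤ)) : L (c.1 + 1 + 2)) • m = eps s • m := by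
  have h1 : (xp (fs 0 0 1 (0 : Fin c.1 → ℤ)) : L (c.1 + 1 + 2)) • m = (((-1 : ℤˣ)) : ℤ) • m :=
    act_all _ _ (fun i hi => by rw [s_gen hi]; simp) m
  have h2 := act_zpow _ _ m h1 s
  rw [fs_smul] at h2
  simpa [eps] using h2

theorem y2_all {c : MCode} (b : ℤ) (m : P c) :
    (xp (fs 0 b 0 (0 : Fin c.1 → ℤ)) : L (c.1 + 1 + 2)) • m = m := by
  have h1 : (xp (fs 0 1 0 (0 : Fin c.1 → ℤ)) : L (c.1 + 1 + 2)) • m = (((1 : ℤˣ)) : ℤ) • m :=
    act_all _ _ (fun i hi => by rw [y2_gen hi]; simp) m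
  have h2 := act_zpow _ _ m h1 b
  rw [fs_smul] at h2
  simpa using h2

/-- splitting a monomial -/
theorem xp_fs {k : ℕ} (a b s : ℤ) (v : Fin k → ℤ) : (xp (fs a b s v) : L (k + 1 + 2)) =
    xp (fs 0 b 0 0) * (xp (fs 0 0 s 0) * (xp (fs a 0 0 0) * xp (fs 0 0 0 v))) := by
  simp only [← xp_add, fs_add]
  congr 2 <;> simp

/-! ### the maps -/

theorem exists_iota (c : MCode) : ∃ ι : M0 c →+ P c, (∀ i, i < c.2.1 → ι (gen i) = gen (i + 1)) ∧
    ∀ v m, ι (xp v • m) = (xp (fs 0 0 0 v) : L (c.1 + 1 + 2)) • ι m := by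
  have := up (k := c.1) (b := c.2.1) (R := c.2.2) (B := P c)
    (fun v => DistribSMul.toAddMonoidHom (P c) (xp (fs 0 0 0 v) : L (c.1 + 1 + 2)))
    (fun x => by
      change (xp (fs 0 0 0 0) : L (c.1 + 1 + 2)) • x = x
      rw [fs_zero, xp_zero, one_smul])
    (fun v w x => by
      change (xp (fs 0 0 0 (v + w)) : L (c.1 + 1 + 2)) • x = (xp (fs 0 0 0 v) : L (c.1 + 1 + 2)) •
        ((xp (fs 0 0 0 w) : L (c.1 + 1 + 2)) • x)
      rw [smul_smul, ← xp_add, fs_add]; simp)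
    (fun i => gen (i + 1)) (by
      intro r hr
      have h1 := pm_rel (k := c.1 + 1 + 2) (b := c.2.1 + 1) _ (rel_mem1 hr)
      rw [shr, List.map_map] at h1
      rw [← h1]
      unfold ev
      congr 1
      apply List.map_congr_left
      intro t _
      simp only [Function.comp]
      by_cases ht : t.1 < c.2.1
      · rw [if_pos ht, mon_sh3]
        rfl
      · rw [if_neg ht, gen_of_le (by omega), smul_zero, smul_zero])
  obtain ⟨f, hf1, hf2⟩ := this
  exact ⟨f, hf1, hf2⟩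

/-- the sign action -/
noncomputable def rpr (c : MCode) (v : Fin (c.1 + 1 + 2) → ℤ) : M0 c →+ M0 c :=
  eps (v 2) • DistribSMul.toAddMonoidHom (M0 c) (xp (tl v) : L c.1)

theorem rpr_apply (c : MCode) (v : Fin (c.1 + 1 + 2) → ℤ) (x : M0 c) :
    rpr c v x = eps (v 2) • (xp (tl v) : L c.1) • x := rfl

theorem rpr_zero (c : MCode) (x : M0 c) : rpr c 0 x = x := by
  rw [rpr_apply, tl_zero, xp_zero, one_smul, Pi.zero_apply, eps_zero, one_smul]

theorem rpr_add (c : MCode) (v w : Fin (c.1 + 1 + 2) → ℤ) (x : M0 c) :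
    rpr c (v + w) x = rpr c v (rpr c w x) := by
  simp only [rpr_apply]
  rw [tl_add, xp_add, Pi.add_apply, eps_add, mul_smul, mul_smul, smul_comm (xp (tl v) : L c.1) (eps (w 2))]

theorem exists_pr (c : MCode) : ∃ pr : P c →+ M0 c, pr (gen 0) = 0 ∧
    (∀ i, i < c.2.1 → pr (gen (i + 1)) = gen i) ∧
    ∀ v m, pr (xp v • m) = eps (v 2) • (xp (tl v) : L c.1) • pr m := by
  have := up (k := c.1 + 1 + 2) (b := c.2.1 + 1) (R := (sgFr c).2.2) (B := M0 c) (rpr c) (rpr_zero c)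
    (rpr_add c) (fun i => if i = 0 then 0 else gen (i - 1)) (by
      intro r hr
      rcases mem_rel hr with ⟨r', h1, rfl⟩ | ⟨i, h1, rfl⟩ | ⟨i, h1, rfl⟩ | ⟨i, h1, rfl⟩ | rfl | rfl | rfl
      · have h2 := pm_rel (k := c.1) (b := c.2.1) _ h1
        rw [← h2]
        unfold ev
        rw [shr, List.map_map]
        congr 1
        apply List.map_congr_left
        intro t _
        simp only [Function.comp]
        by_cases ht : t.1 < c.2.1
        · rw [if_pos (by omega), mon_sh3, rpr_apply, fs_2, eps_zero, one_smul, tl_fs]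
          simp
        · rw [if_neg (by omega), gen_of_le (by omega), smul_zero, smul_zero]
      · have : i + 1 < c.2.1 + 1 := by omega
        simp only [ev, List.map_cons, List.map_nil, List.sum_cons, List.sum_nil, add_zero, sg, if_true,
          one_smul, mon2, mon_nil, this, rpr_apply, fs_2, eps_one, tl_fs, xp_zero, tl_zero, Pi.zero_apply,
          eps_zero]
        simp
      · rw [ev_eqn _ _ (rpr_zero c) _ _ _ (by omega), mon0, rpr_apply, fs_2, eps_zero, tl_fs, xp_zero]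
        simp
      · rw [ev_eqn _ _ (rpr_zero c) _ _ _ (by omega), mon1, rpr_apply, fs_2, eps_zero, tl_fs, xp_zero]
        simp
      · simp [ev]
      · rw [ev_eqn _ _ (rpr_zero c) _ _ _ (by omega)]
        simp
      · rw [ev_eqn _ _ (rpr_zero c) _ _ _ (by omega)]
        simp)
  obtain ⟨f, hf1, hf2⟩ := this
  refine ⟨f, ?_, ?_, hf2⟩
  · rw [hf1 0 (by omega)]; simp
  · intro i hi
    rw [hf1 (i + 1) (by omega)]; simp

/-- the rational group algebra -/
abbrev A (k : ℕ) := AddMonoidAlgebra ℚ (Fin k → ℤ)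

/-- the action on `W` -/
noncomputable def rth (k : ℕ) (v : Fin (k + 1 + 2) → ℤ) : A k →+ A k :=
  AddMonoidHom.mulLeft (AddMonoidAlgebra.single (tl v) ((eps (v 2) : ℚ) * 2 ^ (v 0)))

theorem rth_apply (k : ℕ) (v : Fin (k + 1 + 2) → ℤ) (x : A k) :
    rth k v x = AddMonoidAlgebra.single (tl v) ((eps (v 2) : ℚ) * 2 ^ (v 0)) * x := rfl

theorem rth_zero (k : ℕ) (x : A k) : rth k 0 x = x := by
  rw [rth_apply, tl_zero, Pi.zero_apply, Pi.zero_apply, eps_zero]
  simp [← AddMonoidAlgebra.one_def]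

theorem rth_add (k : ℕ) (v w : Fin (k + 1 + 2) → ℤ) (x : A k) :
    rth k (v + w) x = rth k v (rth k w x) := by
  simp only [rth_apply]
  rw [← mul_assoc, AddMonoidAlgebra.single_mul_single, tl_add, Pi.add_apply, Pi.add_apply, eps_add]
  congr 2
  rw [zpow_add₀ (by norm_num : (2 : ℚ) ≠ 0)]
  push_cast
  ring

theorem exists_th (c : MCode) : ∃ th : P c →+ A c.1, th (gen 0) = 1 ∧
    ∀ v m, th (xp v • m) = AddMonoidAlgebra.single (tl v) ((eps (v 2) : ℚ) * 2 ^ (v 0)) * th m := by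
  have := up (k := c.1 + 1 + 2) (b := c.2.1 + 1) (R := (sgFr c).2.2) (B := A c.1) (rth c.1) (rth_zero c.1)
    (rth_add c.1) (fun i => if i = 0 then 1 else 0) (by
      intro r hr
      rcases mem_rel hr with ⟨r', h1, rfl⟩ | ⟨i, h1, rfl⟩ | ⟨i, h1, rfl⟩ | ⟨i, h1, rfl⟩ | rfl | rfl | rfl
      · unfold ev
        rw [shr, List.map_map]
        apply List.sum_eq_zero
        intro x hx
        rw [List.mem_map] at hx
        obtain ⟨t, _, rfl⟩ := hx
        simp
      · simp [ev]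
      · rw [ev_eqn _ _ (rth_zero c.1) _ _ _ (by omega)]
        simp
      · rw [ev_eqn _ _ (rth_zero c.1) _ _ _ (by omega)]
        simp
      · simp only [ev, List.map_cons, List.map_nil, List.sum_cons, List.sum_nil, add_zero, sg, if_true,
          one_smul, mon2, mon_nil, rth_apply, fs_2, fs_0, eps_one, tl_fs, tl_zero, Pi.zero_apply,
          eps_zero]
        simp [AddMonoidAlgebra.one_def]
      · rw [ev_eqn _ _ (rth_zero c.1) _ _ _ (by omega), mon0, rth_apply, fs_2, fs_0, eps_zero, tl_fs]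
        simp only [if_true]
        simp only [AddMonoidAlgebra.one_def, AddMonoidAlgebra.single_mul_single]
        rw [sub_eq_zero]
        simp [two_smul, ← AddMonoidAlgebra.single_add]
        norm_num
      · rw [ev_eqn _ _ (rth_zero c.1) _ _ _ (by omega), mon1, rth_apply, fs_2, fs_0, eps_zero, tl_fs]
        simp [AddMonoidAlgebra.one_def])
  obtain ⟨f, hf1, hf2⟩ := this
  refine ⟨f, ?_, hf2⟩
  rw [hf1 0 (by omega)]; simp

/-! ### the group ring inside -/

/-- `x^v` as a monomial of the big ring -/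
def emh (k : ℕ) : (Fin k → ℤ) →+ (Fin (k + 1 + 2) → ℤ) where
  toFun v := fs 0 0 0 v
  map_zero' := fs_zero
  map_add' v w := by rw [fs_add]; simp

/-- the inclusion of the rings -/
noncomputable def emb (k : ℕ) : L k →+* L (k + 1 + 2) := AddMonoidAlgebra.mapDomainRingHom ℤ (emh k)

theorem emb_xp {k : ℕ} (v : Fin k → ℤ) : emb k (xp v) = xp (fs 0 0 0 v) := by
  simp [emb, xp, emh]

/-- extension of scalars -/
noncomputable def ext (k : ℕ) : L k →+* A k :=
  AddMonoidAlgebra.mapRingHom (Fin k → ℤ) (Int.castRingHom ℚ)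

theorem ext_xp {k : ℕ} (v : Fin k → ℤ) : ext k (xp v) = AddMonoidAlgebra.single v 1 := by
  simp [ext, xp]

theorem ext_inj {k : ℕ} (Q : L k) (h : ext k Q = 0) : Q = 0 := by
  rw [← AddMonoidAlgebra.coeff_eq_zero]
  ext v
  have h1 : (ext k Q).coeff v = ((Q.coeff v : ℤ) : ℚ) := by
    simp [ext]
  rw [h] at h1
  have h2 : (((Q.coeff v : ℤ)) : ℚ) = 0 := h1.symm
  exact_mod_cast h2

/-- the data -/
structure Dat (c : MCode) where
  ι : M0 c →+ P c
  pr : P c →+ M0 c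
  th : P c →+ A c.1
  ι_gen : ∀ i, i < c.2.1 → ι (gen i) = gen (i + 1)
  ι_smul : ∀ v m, ι (xp v • m) = (xp (fs 0 0 0 v) : L (c.1 + 1 + 2)) • ι m
  pr_0 : pr (gen 0) = 0
  pr_gen : ∀ i, i < c.2.1 → pr (gen (i + 1)) = gen i
  pr_smul : ∀ v m, pr (xp v • m) = eps (v 2) • (xp (tl v) : L c.1) • pr m
  th_0 : th (gen 0) = 1
  th_smul : ∀ v m, th (xp v • m) = AddMonoidAlgebra.single (tl v) ((eps (v 2) : ℚ) * 2 ^ (v 0)) * th m

theorem dat (c : MCode) : Nonempty (Dat c) := by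
  obtain ⟨ι, h1, h2⟩ := exists_iota c
  obtain ⟨pr, h3, h4, h5⟩ := exists_pr c
  obtain ⟨th, h6, h7⟩ := exists_th c
  exact ⟨⟨ι, pr, th, h1, h2, h3, h4, h5, h6, h7⟩⟩

namespace Dat

variable {c : MCode} (D : Dat c)

include D

theorem pr_ι (m : M0 c) : D.pr (D.ι m) = m := by
  have : (D.pr.comp D.ι) = AddMonoidHom.id _ := by
    apply pm_ext
    intro v i hi
    change D.pr (D.ι (xp v • gen i)) = xp v • gen i
    rw [D.ι_smul, D.pr_smul, fs_2, eps_zero, one_smul, tl_fs, D.ι_gen i hi, D.pr_gen i hi]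
  exact DFunLike.congr_fun this m

theorem y1_ι (a : ℤ) (m : M0 c) : (xp (fs a 0 0 0) : L (c.1 + 1 + 2)) • D.ι m = D.ι m := by
  have h1 : ((DistribSMul.toAddMonoidHom (P c) (xp (fs 1 0 0 0) : L (c.1 + 1 + 2))).comp D.ι) = D.ι := by
    apply pm_ext
    intro v i hi
    change (xp (fs 1 0 0 0) : L (c.1 + 1 + 2)) • D.ι (xp v • gen i) = D.ι (xp v • gen i)
    rw [D.ι_smul, D.ι_gen i hi, smul_comm, y1_gen hi]
  have h2 : (xp (fs 1 0 0 0) : L (c.1 + 1 + 2)) • D.ι m = (((1 : ℤˣ)) : ℤ) • D.ι m := by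
    rw [Units.val_one, one_smul]
    exact DFunLike.congr_fun h1 m
  have h3 := act_zpow _ _ _ h2 a
  rw [fs_smul] at h3
  simpa using h3

/-- the component in `W` -/
noncomputable def w : P c →+ P c := AddMonoidHom.id _ - D.ι.comp D.pr

theorem w_apply (m : P c) : D.w m = m - D.ι (D.pr m) := rfl

theorem smul_ι (v : Fin (c.1 + 1 + 2) → ℤ) (m : M0 c) :
    (xp v : L (c.1 + 1 + 2)) • D.ι m = D.ι (eps (v 2) • (xp (tl v) : L c.1) • m) := by
  conv_lhs => rw [← fs_eta v]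
  rw [xp_fs, mul_smul, y2_all, mul_smul, s_all, mul_smul, ← D.ι_smul, D.y1_ι, map_zsmul]

theorem w_gen0 (v : Fin (c.1 + 1 + 2) → ℤ) : D.w (xp v • gen 0) = xp v • gen 0 := by
  rw [w_apply, D.pr_smul, D.pr_0, smul_zero, smul_zero, map_zero, sub_zero]

theorem w_gen (v : Fin (c.1 + 1 + 2) → ℤ) (i : ℕ) (hi : i < c.2.1) : D.w (xp v • gen (i + 1)) = 0 := by
  rw [w_apply, D.pr_smul, D.pr_gen i hi, ← D.smul_ι, D.ι_gen i hi, sub_self]

theorem y1_w (m : P c) : (xp (fs 1 0 0 0) : L (c.1 + 1 + 2)) • D.w m = 2 • D.w m := by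
  have h1 : ((DistribSMul.toAddMonoidHom (P c) (xp (fs 1 0 0 0) : L (c.1 + 1 + 2))).comp D.w) = 2 • D.w := by
    apply pm_ext
    intro v i hi
    change (xp (fs 1 0 0 0) : L (c.1 + 1 + 2)) • D.w (xp v • gen i) = 2 • D.w (xp v • gen i)
    cases i with
    | zero => rw [D.w_gen0, smul_comm, y1_gen0, smul_comm]
    | succ i => rw [D.w_gen v i (by omega)]; simp
  exact DFunLike.congr_fun h1 m

omit D in
theorem y1_gen0_pow (n : ℕ) : (xp (fs (n : ℤ) 0 0 0) : L (c.1 + 1 + 2)) • (gen 0 : P c) = (2 ^ n : ℕ) • gen 0 := by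
  induction n with
  | zero =>
    rw [Nat.cast_zero, fs_zero, xp_zero, one_smul, pow_zero, one_smul]
  | succ n ih =>
    have : fs ((n + 1 : ℕ) : ℤ) 0 0 (0 : Fin c.1 → ℤ) = fs (n : ℤ) 0 0 0 + fs 1 0 0 0 := by
      rw [fs_add]; simp
    rw [this, xp_add, mul_smul, y1_gen0, smul_comm, ih, smul_smul, pow_succ, mul_comm]

/-- the elements of `W`, up to a power of two -/
theorem w_form (m : P c) : ∃ (n : ℕ) (Q : L c.1), (2 ^ n : ℕ) • D.w m = emb c.1 Q • gen 0 := by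
  refine pm_induction (motive := fun m => ∃ (n : ℕ) (Q : L c.1), (2 ^ n : ℕ) • D.w m = emb c.1 Q • gen 0)
    m ?_ ?_ ?_ ?_
  · exact ⟨0, 0, by simp⟩
  · rintro a b ⟨n, Q, h⟩ ⟨n', Q', h'⟩
    refine ⟨n + n', (2 ^ n' : ℕ) • Q + (2 ^ n : ℕ) • Q', ?_⟩
    rw [map_add, map_add, add_smul, map_nsmul, map_nsmul, smul_assoc, smul_assoc, ← h, ← h', smul_add]
    congr 1
    · rw [smul_smul, pow_add, mul_comm]
    · rw [smul_smul, pow_add]
  · rintro a ⟨n, Q, h⟩
    exact ⟨n, -Q, by rw [map_neg, smul_neg, h, map_neg, neg_smul]⟩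
  · intro v i hi
    cases i with
    | zero =>
      rw [D.w_gen0]
      have hv : (xp v : L (c.1 + 1 + 2)) • (gen 0 : P c) =
          eps (v 2) • (xp (fs 0 0 0 (tl v)) : L (c.1 + 1 + 2)) • ((xp (fs (v 0) 0 0 0) : L (c.1 + 1 + 2)) •
            (gen 0 : P c)) := by
        conv_lhs => rw [← fs_eta v]
        rw [xp_fs, mul_smul, y2_all, mul_smul, s_all, mul_comm, mul_smul]
      rw [hv]
      rcases Int.le_total 0 (v 0) with h | h
      · obtain ⟨n, hn⟩ := Int.eq_ofNat_of_zero_le h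
        refine ⟨0, (eps (v 2) * 2 ^ n) • xp (tl v), ?_⟩
        rw [pow_zero, one_smul, map_zsmul, emb_xp, hn]
        have := y1_gen0_pow (c := c) n
        rw [this, smul_comm _ (2 ^ n : ℕ), smul_assoc, mul_smul]
        rw [← natCast_zsmul]
        simp
      · obtain ⟨n, hn⟩ := Int.eq_ofNat_of_zero_le (a := -(v 0)) (by omega)
        refine ⟨n, eps (v 2) • xp (tl v), ?_⟩
        rw [map_zsmul, emb_xp, smul_assoc, smul_comm (2 ^ n : ℕ), smul_comm (2 ^ n : ℕ), smul_comm (2 ^ n : ℕ),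
          ← y1_gen0_pow n, smul_smul (xp (fs (v 0) 0 0 0) : L (c.1 + 1 + 2)), ← xp_add, fs_add]
        have : v 0 + (n : ℤ) = 0 := by omega
        rw [this, add_zero, add_zero, fs_zero, xp_zero, one_smul]
    | succ i => exact ⟨0, 0, by rw [D.w_gen v i (by omega)]; simp⟩

theorem th_emb (Q : L c.1) : D.th (emb c.1 Q • gen 0) = ext c.1 Q := by
  refine L_induction (motive := fun Q => D.th (emb c.1 Q • gen 0) = ext c.1 Q) Q ?_ ?_ ?_ ?_
  · simp
  · intro a b ha hb; rw [map_add, add_smul, map_add, ha, hb, map_add]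
  · intro a ha; rw [map_neg, neg_smul, map_neg, ha, map_neg]
  · intro v
    rw [emb_xp, D.th_smul, D.th_0, ext_xp, fs_2, fs_0, eps_zero, tl_fs]
    simp

/-- `y_1 = 1` -/
theorem ker1 (m : P c) (h : (xp (fs 1 0 0 0) : L (c.1 + 1 + 2)) • m = m) : D.ι (D.pr m) = m := by
  have h1 : m = D.ι (D.pr m) + D.w m := by rw [w_apply]; abel
  have h2 : D.w m = 0 := by
    have h3 : (xp (fs 1 0 0 0) : L (c.1 + 1 + 2)) • (D.ι (D.pr m) + D.w m) = D.ι (D.pr m) + D.w m := by
      rw [← h1, h]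
    rw [smul_add, D.y1_ι, D.y1_w, add_right_inj, two_smul, add_eq_left] at h3
    exact h3
  rw [h2, add_zero] at h1
  exact h1.symm

omit D in
theorem y1_pow (m : P c) (h : (xp (fs 1 0 0 0) : L (c.1 + 1 + 2)) • m = 2 • m) (n : ℕ) :
    (xp (fs (n : ℤ) 0 0 0) : L (c.1 + 1 + 2)) • m = (2 ^ n : ℕ) • m := by
  induction n with
  | zero => rw [Nat.cast_zero, fs_zero, xp_zero, one_smul, pow_zero, one_smul]
  | succ n ih =>
    have : fs ((n + 1 : ℕ) : ℤ) 0 0 (0 : Fin c.1 → ℤ) = fs (n : ℤ) 0 0 0 + fs 1 0 0 0 := by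
      rw [fs_add]; simp
    rw [this, xp_add, mul_smul, h, smul_comm, ih, smul_smul, pow_succ, mul_comm]

/-- `y_1 = 2` -/
theorem ker2 (m : P c) (h : (xp (fs 1 0 0 0) : L (c.1 + 1 + 2)) • m = 2 • m) (h0 : D.th m = 0) : m = 0 := by
  have h1 : m = D.ι (D.pr m) + D.w m := by rw [w_apply]; abel
  have h2 : D.ι (D.pr m) = 0 := by
    have h3 : (xp (fs 1 0 0 0) : L (c.1 + 1 + 2)) • (D.ι (D.pr m) + D.w m) = 2 • (D.ι (D.pr m) + D.w m) := by
      rw [← h1, h]
    rw [smul_add, D.y1_ι, D.y1_w, smul_add, add_left_inj, two_smul, left_eq_add] at h3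
    exact h3
  rw [h2, zero_add] at h1
  obtain ⟨n, Q, hQ⟩ := D.w_form m
  rw [← h1] at hQ
  have h4 : D.th ((2 ^ n : ℕ) • m) = 0 := by rw [map_nsmul, h0, smul_zero]
  rw [hQ, D.th_emb] at h4
  rw [ext_inj Q h4, map_zero, zero_smul, ← y1_pow m h n] at hQ
  have h5 : (xp (-fs (n : ℤ) 0 0 0) : L (c.1 + 1 + 2)) • ((xp (fs (n : ℤ) 0 0 0) : L (c.1 + 1 + 2)) • m) = m := by
    rw [smul_smul, ← xp_add, neg_add_cancel, xp_zero, one_smul]
  rw [← h5, hQ, smul_zero]

end Dat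

/-! ### translation invariance -/

theorem no_shift {k : ℕ} (g : A k) (hg : g ≠ 0) (u : Fin k → ℤ) (t : ℚ)
    (h : AddMonoidAlgebra.single u t * g = -g) : u = 0 := by
  by_contra hu
  obtain ⟨x, hx⟩ : ∃ x, g.coeff x ≠ 0 := by
    by_contra hcon
    push Not at hcon
    exact hg (by
      rw [← AddMonoidAlgebra.coeff_eq_zero]
      ext x; simpa using hcon x)
  have step : ∀ x, g.coeff x ≠ 0 → g.coeff (-u + x) ≠ 0 := by
    intro x hx hcon
    apply hx
    have h1 : (AddMonoidAlgebra.single u t * g).coeff x = t * g.coeff (-u + x) := by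
      rw [AddMonoidAlgebra.coeff_single_mul_apply]
    rw [h, hcon, mul_zero] at h1
    have h2 : (-g).coeff x = -(g.coeff x) := rfl
    rw [h2, neg_eq_zero] at h1
    exact h1
  have hall : ∀ n : ℕ, g.coeff ((n : ℤ) • (-u) + x) ≠ 0 := by
    intro n
    induction n with
    | zero => simpa using hx
    | succ n ih =>
      have := step _ ih
      have h2 : ((n + 1 : ℕ) : ℤ) • (-u) + x = -u + ((n : ℤ) • (-u) + x) := by
        push_cast
        rw [add_smul, one_smul]; abel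
      rw [h2]
      exact this
  obtain ⟨i, hi⟩ : ∃ i, u i ≠ 0 := by
    by_contra hcon
    push Not at hcon
    exact hu (funext hcon)
  have hinj : Function.Injective (fun n : ℕ => (n : ℤ) • (-u) + x) := by
    intro n n' hn
    have h1 := congrFun hn i
    simp only [Pi.add_apply, Pi.smul_apply, Pi.neg_apply, smul_eq_mul] at h1
    have h2 : ((n : ℤ) - n') * u i = 0 := by linarith
    rcases mul_eq_zero.1 h2 with h3 | h3
    · exact_mod_cast sub_eq_zero.1 h3
    · exact absurd h3 hi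
  have hfin : (Set.range (fun n : ℕ => (n : ℤ) • (-u) + x)).Finite := by
    apply Set.Finite.subset (g.coeff.support.finite_toSet)
    rintro y ⟨n, rfl⟩
    exact Finsupp.mem_support_iff.2 (hall n)
  exact Set.infinite_range_of_injective hinj hfin

/-! ### the change of variables -/

/-- the exponent of the sign variable -/
def es (k : ℕ) : Fin (k + 1) → ℤ := Fin.cons (α := fun _ => ℤ) 1 0

/-- embedding of the last coordinates -/
def lv {k : ℕ} : (Fin k → ℤ) →+ (Fin (k + 1) → ℤ) where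
  toFun v := Fin.cons (α := fun _ => ℤ) 0 v
  map_zero' := by
    funext i
    refine Fin.cases ?_ (fun i => ?_) i <;> rfl
  map_add' v w := by
    funext i
    refine Fin.cases ?_ (fun i => ?_) i <;> rfl

/-- the last coordinates -/
def t1 {k : ℕ} : (Fin (k + 1) → ℤ) →+ (Fin k → ℤ) where
  toFun v := fun i => v i.succ
  map_zero' := rfl
  map_add' _ _ := rfl

theorem t1_lv {k : ℕ} (v : Fin k → ℤ) : t1 (lv v) = v := rfl

theorem dec {k : ℕ} (v : Fin (k + 1) → ℤ) : v = v 0 • es k + lv (t1 v) := by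
  funext i
  refine Fin.cases ?_ (fun i => ?_) i
  · change v 0 = v 0 * 1 + 0
    ring
  · change v i.succ = v 0 * 0 + v i.succ
    ring

theorem t1_es {k : ℕ} : t1 (es k) = 0 := rfl

theorem es_0 {k : ℕ} : es k 0 = 1 := rfl

theorem es_of {k : ℕ} (v : Fin (k + 1) → ℤ) (h : t1 v = 0) : v = v 0 • es k := by
  conv_lhs => rw [dec v]
  rw [h, map_zero, add_zero]

theorem sig_back {k k' : ℕ} (σ : (Fin (k + 1) → ℤ) ≃+ (Fin (k' + 1) → ℤ)) (h : t1 (σ (es k)) = 0) :
    t1 (σ.symm (es k')) = 0 := by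
  have h1 := es_of _ h
  set c := σ (es k) 0 with hc
  have h2 : es k = c • σ.symm (es k') := by
    rw [← map_zsmul, ← h1, AddEquiv.symm_apply_apply]
  have h3 : 1 = c * (σ.symm (es k')) 0 := by
    have := congrFun h2 0
    rw [es_0, Pi.smul_apply, smul_eq_mul] at this
    exact this
  have h4 : c ≠ 0 := by
    rintro h
    rw [h, zero_mul] at h3
    exact one_ne_zero h3
  have h5 : c • t1 (σ.symm (es k')) = 0 := by
    rw [← map_zsmul, ← h2, t1_es]
  exact (smul_eq_zero.1 h5).resolve_left h4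

theorem sig_tail {k k' : ℕ} (σ : (Fin (k + 1) → ℤ) ≃+ (Fin (k' + 1) → ℤ)) (h : t1 (σ (es k)) = 0)
    (v : Fin (k + 1) → ℤ) : t1 (σ (lv (t1 v))) = t1 (σ v) := by
  have h1 : lv (t1 v) = v - v 0 • es k := by
    conv_rhs => lhs; rw [dec v]
    rw [add_sub_cancel_left]
  rw [h1, map_sub, map_zsmul, map_sub, map_zsmul, h, smul_zero, sub_zero]

/-- the induced change of variables -/
def sbar {k k' : ℕ} (σ : (Fin (k + 1) → ℤ) ≃+ (Fin (k' + 1) → ℤ)) (h : t1 (σ (es k)) = 0) :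
    (Fin k → ℤ) ≃+ (Fin k' → ℤ) where
  toFun v := t1 (σ (lv v))
  invFun v := t1 (σ.symm (lv v))
  left_inv v := by
    change t1 (σ.symm (lv (t1 (σ (lv v))))) = v
    rw [sig_tail σ.symm (sig_back σ h), AddEquiv.symm_apply_apply, t1_lv]
  right_inv v := by
    change t1 (σ (lv (t1 (σ.symm (lv v))))) = v
    rw [sig_tail σ h, AddEquiv.apply_symm_apply, t1_lv]
  map_add' v w := by rw [map_add, map_add, map_add]

theorem fr_eq {k : ℕ} (a b : ℤ) (v : Fin (k + 1) → ℤ) : fr a b v = fs a b (v 0) (t1 v) := by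
  have : (Fin.cons (α := fun _ => ℤ) (v 0) (t1 v) : Fin (k + 1) → ℤ) = v := by
    funext i
    refine Fin.cases ?_ (fun i => ?_) i <;> rfl
  rw [fs, this]

theorem gen0_ne {c : MCode} : (gen 0 : P c) ≠ 0 := by
  obtain ⟨D⟩ := dat c
  intro h
  have := D.th_0
  rw [h, map_zero] at this
  exact zero_ne_one this

end E2b

open E2b in
/-- E2b -/
theorem e2b (p : MCode × MCode) (h : FrIso (sgFr p.1, sgFr p.2)) : SignedIso p := by
  obtain ⟨c, c'⟩ := p
  obtain ⟨σ, φ, hφ⟩ := h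
  change (Fin (c.1 + 1) → ℤ) ≃+ (Fin (c'.1 + 1) → ℤ) at σ
  change P c ≃+ P c' at φ
  replace hφ : ∀ (a b : ℤ) (v : Fin (c.1 + 1) → ℤ) (m : P c),
      φ ((xp (fr a b v) : L (c.1 + 1 + 2)) • m) = (xp (fr a b (σ v)) : L (c'.1 + 1 + 2)) • φ m := hφ
  obtain ⟨D⟩ := dat c
  obtain ⟨D'⟩ := dat c'
  have e0 : ∀ k : ℕ, fr 1 0 (0 : Fin (k + 1) → ℤ) = fs 1 0 0 (0 : Fin k → ℤ) := by
    intro k
    rw [fr_eq]; rfl
  have hy : ∀ m : P c, φ ((xp (fs 1 0 0 0) : L (c.1 + 1 + 2)) • m) =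
      (xp (fs 1 0 0 0) : L (c'.1 + 1 + 2)) • φ m := by
    intro m
    rw [← e0, hφ, map_zero, e0]
  have hy' : ∀ m : P c', φ.symm ((xp (fs 1 0 0 0) : L (c'.1 + 1 + 2)) • m) =
      (xp (fs 1 0 0 0) : L (c.1 + 1 + 2)) • φ.symm m := by
    intro m
    rw [AddEquiv.symm_apply_eq, hy, AddEquiv.apply_symm_apply]
  -- the sign variable
  have hw0 : φ (gen 0) ≠ 0 := by
    intro h
    exact gen0_ne ((map_eq_zero_iff φ φ.injective).1 h)
  have hw1 : (xp (fs 1 0 0 0) : L (c'.1 + 1 + 2)) • φ (gen 0) = 2 • φ (gen 0) := by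
    rw [← hy, y1_gen0, map_nsmul]
  have hth : D'.th (φ (gen 0)) ≠ 0 := fun h => hw0 (D'.ker2 _ hw1 h)
  have hes : t1 (σ (es c.1)) = 0 := by
    have h1 : φ ((xp (fr 0 0 (es c.1)) : L (c.1 + 1 + 2)) • gen 0) = -φ (gen 0) := by
      have : fr 0 0 (es c.1) = fs 0 0 1 (0 : Fin c.1 → ℤ) := rfl
      rw [this, s_gen (by omega), map_neg]
    rw [hφ, fr_eq] at h1
    have h2 := congrArg D'.th h1
    rw [D'.th_smul, map_neg, tl_fs, fs_2, fs_0] at h2
    exact no_shift _ hth _ _ h2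
  have hi : ∀ m : M0 c, D'.ι (D'.pr (φ (D.ι m))) = φ (D.ι m) := fun m =>
    D'.ker1 _ (by rw [← hy, D.y1_ι])
  have hi' : ∀ m : M0 c', D.ι (D.pr (φ.symm (D'.ι m))) = φ.symm (D'.ι m) := fun m =>
    D.ker1 _ (by rw [← hy', D'.y1_ι])
  refine ⟨sbar σ hes, fun v => eps (σ (lv v) 0),
    { toFun := fun m => D'.pr (φ (D.ι m))
      invFun := fun m => D.pr (φ.symm (D'.ι m))
      left_inv := fun m => by
        change D.pr (φ.symm (D'.ι (D'.pr (φ (D.ι m))))) = m
        rw [hi, AddEquiv.symm_apply_apply, D.pr_ι]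
      right_inv := fun m => by
        change D'.pr (φ (D.ι (D.pr (φ.symm (D'.ι m))))) = m
        rw [hi', AddEquiv.apply_symm_apply, D'.pr_ι]
      map_add' := fun m m' => by rw [map_add, map_add, map_add] }, ?_, ?_, ?_⟩
  · intro v; exact eps_or _
  · intro v w
    change eps (σ (lv (v + w)) 0) = _
    rw [map_add, map_add, Pi.add_apply, eps_add]
  · intro v m
    change D'.pr (φ (D.ι (xp v • m))) = eps (σ (lv v) 0) • (xp (t1 (σ (lv v))) : L c'.1) • D'.pr (φ (D.ι m))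
    have h1 : fs 0 0 0 v = fr 0 0 (lv v) := by rw [fr_eq]; rfl
    rw [D.ι_smul, h1, hφ, fr_eq, D'.pr_smul, fs_2, tl_fs]

end Pool.Agent.MET
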